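import Pool.Agent.J4H20.LV.Stm

/-!
# Project LV: all shapes (SHP)
-/

set_option autoImplicit false

namespace Pool.Agent.J4H98.LV

open Pool.Agent.J4H20.LV

theorem distr : ∀ e c S : ℕ, S ≤ e * c → ∃ τ : Fin e → ℕ, (∀ l, τ l ≤ c) ∧ ∑ l, τ l = S := by
  intro e c
  induction e with
  | zero =>
    intro S hS
    refine ⟨fun l => l.elim0, fun l => l.elim0, ?_⟩
    simp only [zero_mul, Nat.le_zero] at hS
    simp [hS]
  | succ e ih =>
    intro S hS
    rw [Nat.succ_mul] at hS
    obtain ⟨τ, h1, h2⟩ := ih (S - min S c) (by
      rcases le_total S c with h | h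
      · rw [min_eq_left h]
        omega
      · rw [min_eq_right h]
        omega)
    refine ⟨Fin.cons (min S c) τ, ?_, ?_⟩
    · intro l
      refine Fin.cases ?_ (fun i => ?_) l
      · rw [Fin.cons_zero]
        exact min_le_right _ _
      · rw [Fin.cons_succ]
        exact h1 i
    · rw [Fin.sum_cons, h2]
      have := min_le_left S c
      omega

theorem t_SHP : S_SHA → S_SHB → S_SHC → S_SHP := by
  intro hA hB hC m e j ρ hm he hj hρ hpar
  rcases Nat.even_or_odd' m with ⟨q, hq | hq⟩
  · -- `m` even
    obtain ⟨q, rfl⟩ : ∃ r, q = r + 1 := ⟨q - 1, by omega⟩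
    have hmul : (m - 1) * e = 2 * (q * e) + e := by
      have : m - 1 = 2 * q + 1 := by omega
      rw [this]
      ring
    rw [hmul] at hρ hpar
    rw [Nat.even_iff] at hpar
    rcases Nat.lt_or_ge ρ e with hρe | hρe
    · -- few real solutions
      have hme : Even m := ⟨q + 1, by omega⟩
      rcases Nat.eq_zero_or_pos ρ with h0 | h0
      · subst h0
        rcases Nat.even_or_odd j with hje | hjo
        · have hee : Even (e - 0) := by
            rw [Nat.even_iff] at hje ⊢
            omega
          have hj0 : Even (j - 0) := by simpa using hje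
          exact hB m e j 0 0 hm hme he hj (Nat.zero_le _) hee (Nat.zero_le _) hj0
        · have heo : Odd e := by
            rw [Nat.odd_iff] at hjo ⊢
            omega
          exact hC m e j hm hme heo hjo hj
      · have h1 : j % 2 ≤ 1 := by omega
        have h2 := hB m e j (ρ - j % 2) (j % 2) hm hme he hj (by omega) (by
          rw [Nat.even_iff]
          omega) (Nat.mod_le _ _) (by
          rw [Nat.even_iff]
          omega)
        have h3 : ρ - j % 2 + j % 2 = ρ := by omega
        rwa [h3] at h2
    · rcases Nat.lt_or_ge (ρ - e) j with h1 | h1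
      · have h2 := hA m e j (fun _ => 1) (ρ - e) hm he hj (fun _ => ⟨by omega, by
          rw [Nat.odd_iff]
          omega⟩) h1.le (by
          rw [Nat.even_iff]
          omega)
        rw [Finset.sum_const, Finset.card_univ, Fintype.card_fin, smul_eq_mul, mul_one] at h2
        have h3 : e + (ρ - e) = ρ := by omega
        rwa [h3] at h2
      · obtain ⟨S, hS⟩ : ∃ S, ρ - e - j = 2 * S := ⟨(ρ - e - j) / 2, by omega⟩
        obtain ⟨τ, h2, h3⟩ := distr e q S (by
          rw [mul_comm]
          omega)
        have h4 := hA m e j (fun l => 2 * τ l + 1) j hm he hj (fun l => ⟨by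
          have := h2 l
          show 2 * τ l + 1 < m
          omega, by
          have := h2 l
          show Odd (m - (2 * τ l + 1))
          rw [Nat.odd_iff]
          omega⟩) le_rfl (by simp)
        have h5 : ∑ l, (2 * τ l + 1) + j = ρ := by
          rw [Finset.sum_add_distrib, ← Finset.mul_sum, h3, Finset.sum_const, Finset.card_univ,
            Fintype.card_fin, smul_eq_mul, mul_one]
          omega
        rwa [h5] at h4
  · -- `m` odd
    have hmul : (m - 1) * e = 2 * (q * e) := by
      have : m - 1 = 2 * q := by omega
      rw [this]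
      ring
    rw [hmul] at hρ hpar
    rw [Nat.even_iff] at hpar
    rcases Nat.lt_or_ge ρ j with h1 | h1
    · have h2 := hA m e j (fun _ => 0) ρ hm he hj (fun _ => ⟨by omega, by
        rw [Nat.odd_iff]
        omega⟩) h1.le (by
        rw [Nat.even_iff]
        omega)
      rw [Finset.sum_const_zero, zero_add] at h2
      exact h2
    · obtain ⟨S, hS⟩ : ∃ S, ρ - j = 2 * S := ⟨(ρ - j) / 2, by omega⟩
      obtain ⟨τ, h2, h3⟩ := distr e q S (by
        rw [mul_comm]
        omega)
      have h4 := hA m e j (fun l => 2 * τ l) j hm he hj (fun l => ⟨by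
        have := h2 l
        show 2 * τ l < m
        omega, by
        have := h2 l
        show Odd (m - 2 * τ l)
        rw [Nat.odd_iff]
        omega⟩) le_rfl (by simp)
      have h5 : ∑ l, 2 * τ l + j = ρ := by
        rw [← Finset.mul_sum, h3]
        omega
      rwa [h5] at h4

end Pool.Agent.J4H98.LV
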