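import Pool.Agent.J4H20.LV.Stm

/-!
# Project LV: one prime which is `-1` modulo `4 m` (T2)
-/

set_option autoImplicit false

namespace Pool.Agent.J4H98.LV

open Polynomial
open Pool.Agent.J4H20.LV
open scoped NumberTheorySymbols

lemma jac (d : ℕ) (hd : 0 < d) (q : ℕ) (hq : 4 * d ∣ q + 1) : J((d : ℤ) | q) = 1 := by
  obtain ⟨t, ht⟩ := hq
  have ht0 : 0 < t := by
    rcases Nat.eq_zero_or_pos t with h | h
    · subst h
      omega
    · exact h
  obtain ⟨u, rfl⟩ : ∃ u, t = u + 1 := ⟨t - 1, by omega⟩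
  have hq' : q = 4 * d * u + (4 * d - 1) := by
    have : 4 * d * (u + 1) = 4 * d * u + 4 * d := by ring
    omega
  have hodd : Odd q := by
    rw [Nat.odd_iff, hq']
    have : 4 * d * u = 2 * (2 * d * u) := by ring
    omega
  have hmod : q % (4 * d) = 4 * d - 1 := by
    rw [hq', Nat.mul_add_mod]
    exact Nat.mod_eq_of_lt (by omega)
  rw [jacobiSym.mod_right _ hodd, Int.natAbs_natCast, hmod]
  have hb : Odd (4 * d - 1) := by
    rw [Nat.odd_iff]
    omega
  have h4 : J((4 * d : ℤ) | 4 * d - 1) = 1 := by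
    have e : ((4 * d : ℤ)) % ((4 * d - 1 : ℕ) : ℤ) = (1 : ℤ) % ((4 * d - 1 : ℕ) : ℤ) := by
      have : (4 * d : ℤ) = 1 + ((4 * d - 1 : ℕ) : ℤ) := by
        rw [Nat.cast_sub (by omega)]
        push_cast
        ring
      rw [this]
      simp
    rw [jacobiSym.mod_left' e, jacobiSym.one_left]
  have h2 : J((4 : ℤ) | 4 * d - 1) = 1 := by
    have e : (4 : ℤ) = 2 * 2 := by norm_num
    have hc : J((2 : ℤ) | 4 * d - 1) = 1 ∨ J((2 : ℤ) | 4 * d - 1) = -1 := by
      apply jacobiSym.eq_one_or_neg_one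
      have : Nat.Coprime 2 (4 * d - 1) := (Nat.coprime_two_left).2 hb
      simpa [Int.gcd] using this
    rw [e, jacobiSym.mul_left]
    rcases hc with h | h <;> rw [h] <;> norm_num
  rw [jacobiSym.mul_left, h2, one_mul] at h4
  exact h4

theorem cast_ne {q : ℕ} {z : ℤ} (hz : z ≠ 0) (hq : z.natAbs < q) : ((z : ℤ) : ZMod q) ≠ 0 := by
  intro h
  rw [ZMod.intCast_zmod_eq_zero_iff_dvd] at h
  have h1 := Int.natAbs_dvd_natAbs.2 h
  rw [Int.natAbs_natCast] at h1
  have h2 := Nat.le_of_dvd (Int.natAbs_pos.2 hz) h1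
  omega

/-- the core: the zero and the derivative modulo `q` -/
theorem core {q m : ℕ} [Fact q.Prime] (hm : 1 ≤ m) {y s M c G H G' H' F F' : ZMod q} (hM : M ≠ 0)
    (hH : H ≠ 0) (hy : y ^ m = F) (hs : s * H = y - G) (hc : c = s * M) :
    (M * G + c * H) ^ m - M ^ m * F = 0 ∧
    ((m : ZMod q) * (M * G + c * H) ^ (m - 1) * (M * G' + c * H') - M ^ m * F' = 0 →
      (m : ZMod q) ^ m * F ^ (m - 1) * (G' * H - G * H') ^ m - (F' * H - m * F * H') ^ m = 0) := by
  have h1 : M * G + c * H = M * y := by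
    rw [hc]
    linear_combination M * hs
  constructor
  · rw [h1, mul_pow, hy, sub_self]
  · rw [h1]
    intro h
    obtain ⟨n, rfl⟩ : ∃ n, m = n + 1 := ⟨m - 1, by omega⟩
    simp only [Nat.add_sub_cancel] at h ⊢
    have h2 : M ^ (n + 1) * ((((n + 1 : ℕ) : ZMod q)) * y ^ n * (G' + s * H') - F') = 0 := by
      rw [← h, hc, mul_pow]
      ring
    have h3 : (((n + 1 : ℕ) : ZMod q)) * y ^ n * (G' + s * H') - F' = 0 := by
      rcases mul_eq_zero.1 h2 with h4 | h4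
      · exact absurd h4 (pow_ne_zero _ hM)
      · exact h4
    have h5 : (((n + 1 : ℕ) : ZMod q)) * y ^ n * (G' * H - G * H') =
        F' * H - ((n + 1 : ℕ) : ZMod q) * F * H' := by
      have h6 : F' = (((n + 1 : ℕ) : ZMod q)) * y ^ n * (G' + s * H') := (sub_eq_zero.1 h3).symm
      rw [h6, ← hy, pow_succ]
      linear_combination (-(((n + 1 : ℕ) : ZMod q)) * y ^ n * H') * hs
    have h7 : (((n + 1 : ℕ) : ZMod q)) ^ (n + 1) * F ^ n * (G' * H - G * H') ^ (n + 1) =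
        ((((n + 1 : ℕ) : ZMod q)) * y ^ n * (G' * H - G * H')) ^ (n + 1) := by
      rw [mul_pow, mul_pow, ← hy, ← pow_mul, ← pow_mul, mul_comm n (n + 1)]
    rw [h7, h5, sub_self]

theorem t_T2 : S_T2 := by
  intro m e j k D N
  classical
  have hm := D.hm
  obtain ⟨f, hf⟩ : ∃ f : ℤ[X], f = ∏ i, (X - C (D.a i)) := ⟨_, rfl⟩
  obtain ⟨Φ, hΦ⟩ : ∃ Φ : ℤ[X], Φ = C ((m : ℤ) ^ m) * f ^ (m - 1) *
    (derivative D.g * D.h - D.g * derivative D.h) ^ m -
    (derivative f * D.h - C (m : ℤ) * f * derivative D.h) ^ m := ⟨_, rfl⟩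
  -- the value at `a 0`
  have hf0 : f.eval (D.a 0) = 0 := by
    rw [hf, eval_prod]
    exact Finset.prod_eq_zero (Finset.mem_univ 0) (by simp)
  have hf0' : (derivative f).eval (D.a 0) ≠ 0 := by
    rw [hf, ← Finset.mul_prod_erase _ _ (Finset.mem_univ (0 : Fin (k + 2))), derivative_mul, eval_add,
      eval_mul, eval_mul]
    simp only [derivative_sub, derivative_X, derivative_C, sub_zero, eval_one, one_mul, eval_sub, eval_X,
      eval_C, sub_self, zero_mul, add_zero, eval_prod]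
    rw [Finset.prod_ne_zero_iff]
    intro i hi h
    exact Finset.ne_of_mem_erase hi (D.ha (sub_eq_zero.1 h)).symm
  have hh0 : D.h.eval (D.a 0) ≠ 0 := by
    intro h
    apply D.hco 0 2 Nat.prime_two (Or.inl rfl)
    rw [h]
    exact dvd_zero _
  have hΦ0 : Φ ≠ 0 := by
    intro h
    have h1 := congrArg (eval (D.a 0)) h
    rw [hΦ] at h1
    simp only [eval_sub, eval_mul, eval_pow, eval_C, hf0, eval_zero, mul_zero, zero_mul, sub_zero] at h1
    rw [zero_pow (by omega : m - 1 ≠ 0), mul_zero, zero_mul, zero_sub, neg_eq_zero] at h1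
    exact mul_ne_zero hf0' hh0 (pow_eq_zero_iff (by omega : m ≠ 0) |>.1 h1)
  have hP : D.h * Φ ≠ 0 := mul_ne_zero D.hh.ne_zero hΦ0
  -- the integer `x`
  obtain ⟨x, hx1, hx2⟩ : ∃ x : ℤ, (∑ i, |D.a i|) < x ∧ (D.h * Φ).eval x ≠ 0 := by
    have h1 := ((Set.Ioi_infinite (∑ i, |D.a i|)).diff (Polynomial.finite_setOf_isRoot hP)).nonempty
    obtain ⟨x, hx, hx'⟩ := h1
    exact ⟨x, hx, hx'⟩
  rw [eval_mul] at hx2
  have hhx : D.h.eval x ≠ 0 := left_ne_zero_of_mul hx2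
  have hΦx : Φ.eval x ≠ 0 := right_ne_zero_of_mul hx2
  have hfx : 0 < f.eval x := by
    rw [hf, eval_prod]
    apply Finset.prod_pos
    intro i _
    rw [eval_sub, eval_X, eval_C]
    have h1 : |D.a i| ≤ ∑ i, |D.a i| := Finset.single_le_sum (f := fun i => |D.a i|) (fun _ _ => abs_nonneg _) (Finset.mem_univ i)
    have h2 := le_abs_self (D.a i)
    linarith
  obtain ⟨F, hF⟩ : ∃ F : ℕ, (F : ℤ) = f.eval x := ⟨(f.eval x).toNat, Int.toNat_of_nonneg hfx.le⟩
  have hF0 : 0 < F := by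
    have : (0 : ℤ) < F := by rw [hF]; exact hfx
    exact_mod_cast this
  -- the prime
  have hQ0 : 4 * (m * F) ≠ 0 := by positivity
  have : NeZero (4 * (m * F)) := ⟨hQ0⟩
  obtain ⟨q, hqB, hqp, hq⟩ := Nat.forall_exists_prime_gt_and_eq_mod (q := 4 * (m * F)) (a := -1)
    (isUnit_one.neg) (N + (D.h.eval x).natAbs + (Φ.eval x).natAbs + m)
  have hdvd : 4 * (m * F) ∣ q + 1 := by
    rw [← ZMod.natCast_eq_zero_iff]
    push_cast
    rw [hq]
    ring
  have : Fact q.Prime := ⟨hqp⟩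
  obtain ⟨u, hu⟩ := hdvd
  have hu0 : 0 < u := by
    rcases Nat.eq_zero_or_pos u with h | h
    · subst h
      omega
    · exact h
  -- `F` is an `m`-th power
  have hjac := jac F hF0 q ⟨m * u, by rw [hu]; ring⟩
  rw [← jacobiSym.legendreSym.to_jacobiSym] at hjac
  have hFne : (((F : ℤ)) : ZMod q) ≠ 0 := by
    intro h
    rw [(legendreSym.eq_zero_iff q _).2 h] at hjac
    norm_num at hjac
  obtain ⟨z, hz⟩ := (legendreSym.eq_one_iff q hFne).1 hjac
  have hz0 : z ≠ 0 := by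
    rintro rfl
    rw [mul_zero] at hz
    exact hFne hz
  obtain ⟨F', hF'⟩ : ∃ F' : ZMod q, F' = ((F : ℤ) : ZMod q) := ⟨_, rfl⟩
  rw [← hF'] at hFne hz
  obtain ⟨w, hw⟩ : ∃ w, u = w + 1 := ⟨u - 1, by omega⟩
  have hmF : 1 ≤ m * F := Nat.mul_pos (by omega) hF0
  have hpow : F' ^ (2 * (m * F * u) - 1) = 1 := by
    have h1 : 2 * (2 * (m * F * u) - 1) = q - 1 := by
      have h2 : 4 * (m * F) * u = 4 * (m * F * u) := by ring
      have h3 : 1 ≤ m * F * u := Nat.mul_pos hmF hu0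
      omega
    rw [hz, ← pow_two, ← pow_mul, h1]
    exact ZMod.pow_card_sub_one_eq_one hz0
  have hym : (F' ^ (2 * (F * u))) ^ m = F' := by
    rw [← pow_mul]
    have h2 : 2 * (F * u) * m = (2 * (m * F * u) - 1) + 1 := by
      have h3 : 1 ≤ m * F * u := Nat.mul_pos hmF hu0
      have h4 : 2 * (F * u) * m = 2 * (m * F * u) := by ring
      omega
    rw [h2, pow_succ, hpow, one_mul]
  obtain ⟨y, hy⟩ : ∃ y : ZMod q, y = F' ^ (2 * (F * u)) := ⟨_, rfl⟩
  rw [← hy] at hym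
  have hHne : ((D.h.eval x : ℤ) : ZMod q) ≠ 0 := cast_ne hhx (by omega)
  have hΦne : ((Φ.eval x : ℤ) : ZMod q) ≠ 0 := cast_ne hΦx (by omega)
  refine ⟨q, x, (y - ((D.g.eval x : ℤ) : ZMod q)) / ((D.h.eval x : ℤ) : ZMod q), hqp, by omega,
    ⟨F * u, by rw [hu]; ring⟩, ?_⟩
  intro c M hM hc
  have hMne : ((M : ℤ) : ZMod q) ≠ 0 := by
    rw [Ne, ZMod.intCast_zmod_eq_zero_iff_dvd]
    exact hM
  obtain ⟨c1, c2⟩ := core (m := m) (q := q) (by omega) (G := ((D.g.eval x : ℤ) : ZMod q))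
    (G' := (((derivative D.g).eval x : ℤ) : ZMod q)) (H' := (((derivative D.h).eval x : ℤ) : ZMod q))
    (F' := (((derivative f).eval x : ℤ) : ZMod q)) hMne hHne hym (div_mul_cancel₀ _ hHne) hc
  have hHL : HL m D.g D.r D.h c M = (C M * D.g + C c * D.h) ^ m - C (M ^ m) * f := by
    unfold HL
    rw [hf, D.hf]
  have hFx : F' = ((f.eval x : ℤ) : ZMod q) := by rw [hF', hF]
  rw [hFx] at c1 c2
  constructor
  · rw [← ZMod.intCast_zmod_eq_zero_iff_dvd, hHL]
    simp only [eval_sub, eval_pow, eval_add, eval_mul, eval_C]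
    push_cast
    exact c1
  · rw [← ZMod.intCast_zmod_eq_zero_iff_dvd, hHL]
    intro h
    apply hΦne
    rw [hΦ]
    simp only [derivative_sub, derivative_pow, derivative_add, derivative_C_mul, eval_sub, eval_pow,
      eval_add, eval_mul, eval_C] at h ⊢
    push_cast at h ⊢
    exact c2 h

end Pool.Agent.J4H98.LV
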